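import Pool.Agent.Helper65.KH.Goals

/-! Packet KH-BJ (MP_20ee5e_ag, project KH of helper65). -/

set_option autoImplicit false

open MvPolynomial MeasureTheory

namespace Pool.Agent.Helper70.KH.BJ

open Pool.Agent.Helper65.KH

section
variable {ι : Type} [Fintype ι] [DecidableEq ι]

/-- coordinates of the shifted point -/
noncomputable def la (σ : Finset (ι → ℕ)) (l : (ι → ℕ) → ℝ) (e : ι ≃ σ) (a : ι → ℕ)
    (u : ι → ℕ) : ℝ := l u + (if h : u ∈ σ then (a (e.symm ⟨u, h⟩) : ℝ) else 0)

/-- the shifted point -/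
def Gf (σ : Finset (ι → ℕ)) (e : ι ≃ σ) (b a : ι → ℕ) : ι → ℕ :=
  fun i => b i + ∑ j, a j * (e j : ι → ℕ) i

omit [DecidableEq ι] in
lemma sum_a (σ : Finset (ι → ℕ)) (e : ι ≃ σ) (a : ι → ℕ) (F : (ι → ℕ) → ℝ) :
    ∑ u ∈ σ, (if h : u ∈ σ then (a (e.symm ⟨u, h⟩) : ℝ) else 0) * F u =
      ∑ j, (a j : ℝ) * F (e j : ι → ℕ) := by
  rw [← Finset.sum_coe_sort σ, ← e.sum_comp]
  refine Finset.sum_congr rfl fun j _ => ?_
  rw [dif_pos (e j).2]
  simp

lemma cell_shift {V : Finset (ι → ℕ)} {θ : ι → ℝ} {b : ι → ℕ} {σ : Finset (ι → ℕ)}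
    {l : (ι → ℕ) → ℝ} {w : ι → ℝ} (h : Cell V θ b σ l w) (e : ι ≃ σ) (a : ι → ℕ) :
    Cell V θ (Gf σ e b a) σ (la σ l e a) w where
  sub := h.sub
  card := h.card
  pos := by
    intro u hu
    unfold la
    rw [dif_pos hu]
    have := h.pos u hu
    positivity
  eq := by
    intro i
    unfold la Gf
    simp only [add_mul, Finset.sum_add_distrib]
    rw [sum_a σ e a (fun u => (u i : ℝ)), ← h.eq i]
    push_cast
    ring
  one := h.one
  gt := h.gt

theorem t (hCE : S_CE) (hDG : S_DG) : S_BJ := by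
  intro ι _ _ V θ hC hG hT
  have hcell := hCE ι V θ hC hG hT
  choose σ l w hcl using hcell
  have hdg := fun p σ l w h => hDG ι V θ hC hG hT p σ l w h
  have hcard : ∀ p, Fintype.card ι = Fintype.card (σ p) := by
    intro p
    rw [Fintype.card_coe]
    exact (hcl p).card.symm
  let e : ∀ p, ι ≃ σ p := fun p => Fintype.equivOfCardEq (hcard p)
  -- the box
  have hfin : {p : ι → ℕ | ∀ u ∈ σ p, l p u < 1}.Finite := by
    refine (Set.finite_Icc (0 : ι → ℕ) (fun i => ∑ u ∈ V, u i)).subset ?_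
    intro p hp
    refine ⟨fun i => Nat.zero_le _, fun i => ?_⟩
    have h1 := (hcl p).eq i
    have h2 : ∑ u ∈ σ p, l p u * (u i : ℝ) ≤ ∑ u ∈ V, (u i : ℝ) := by
      calc ∑ u ∈ σ p, l p u * (u i : ℝ) ≤ ∑ u ∈ σ p, (u i : ℝ) := by
            refine Finset.sum_le_sum fun u hu => ?_
            have h3 := hp u hu
            have h4 : (0 : ℝ) ≤ (u i : ℝ) := Nat.cast_nonneg _
            nlinarith
        _ ≤ ∑ u ∈ V, (u i : ℝ) :=
            Finset.sum_le_sum_of_subset_of_nonneg (hcl p).sub fun u _ _ => Nat.cast_nonneg _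
    have h5 : ((p i : ℕ) : ℝ) ≤ ((∑ u ∈ V, u i : ℕ) : ℝ) := by
      push_cast
      have := (hT.1 i).1
      linarith
    exact_mod_cast h5
  have hGcell : ∀ b a, Cell V θ (Gf (σ b) (e b) b a) (σ b) (la (σ b) (l b) (e b) a) (w b) :=
    fun b a => cell_shift (hcl b) (e b) a
  refine ⟨hfin.toFinset, fun b a => Gf (σ b) (e b) b a, ?_, ?_, ?_, ?_, ?_⟩
  · intro b _ a
    rw [(hdg _ _ _ _ (hGcell b a)).1, (hdg _ _ _ _ (hcl b)).1]
    unfold la
    rw [Finset.sum_add_distrib]
    congr 1
    have := sum_a (σ b) (e b) a (fun _ => (1 : ℝ))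
    simpa using this
  · intro b _
    funext i
    simp [Gf]
  · intro b hb b' hb' a a' hab
    rw [Set.Finite.mem_toFinset] at hb hb'
    have c1 := hGcell b a
    have c2 := hGcell b' a'
    beta_reduce at hab
    rw [← hab] at c2
    obtain ⟨hσ, hl⟩ := (hdg _ _ _ _ c1).2.1 _ _ _ c2
    have key : ∀ u (hu : u ∈ σ b) (hu' : u ∈ σ b'), l b u = l b' u ∧
        a ((e b).symm ⟨u, hu⟩) = a' ((e b').symm ⟨u, hu'⟩) := by
      intro u hu hu'
      have h1 := hl u hu
      unfold la at h1
      rw [dif_pos hu, dif_pos hu'] at h1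
      have p1 := (hcl b).pos u hu
      have p2 := (hcl b').pos u hu'
      have q1 := hb u hu
      have q2 := hb' u hu'
      have h2 : a ((e b).symm ⟨u, hu⟩) = a' ((e b').symm ⟨u, hu'⟩) := by
        rcases lt_trichotomy (a ((e b).symm ⟨u, hu⟩)) (a' ((e b').symm ⟨u, hu'⟩)) with h | h | h
        · have h3 : (a ((e b).symm ⟨u, hu⟩) : ℝ) + 1 ≤ a' ((e b').symm ⟨u, hu'⟩) := by
            exact_mod_cast h
          linarith
        · exact h
        · have h3 : (a' ((e b').symm ⟨u, hu'⟩) : ℝ) + 1 ≤ a ((e b).symm ⟨u, hu⟩) := by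
            exact_mod_cast h
          linarith
      refine ⟨?_, h2⟩
      rw [h2] at h1
      linarith
    have hbb : b = b' := by
      funext i
      have e1 := (hcl b).eq i
      have e2 := (hcl b').eq i
      have e3 : ∑ u ∈ σ b, l b u * (u i : ℝ) = ∑ u ∈ σ b', l b' u * (u i : ℝ) := by
        rw [← hσ]
        refine Finset.sum_congr rfl fun u hu => ?_
        rw [(key u hu (hσ ▸ hu)).1]
      have e4 : ((b i : ℕ) : ℝ) = b' i := by linarith
      exact_mod_cast e4
    refine ⟨hbb, ?_⟩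
    subst hbb
    funext i
    have := (key (e b i) (e b i).2 (e b i).2).2
    simpa using this
  · intro p
    induction hs : ∑ i, p i using Nat.strong_induction_on generalizing p with
    | _ s IH =>
    by_cases hp : ∀ u ∈ σ p, l p u < 1
    · refine ⟨p, by rw [Set.Finite.mem_toFinset]; exact hp, 0, ?_⟩
      funext i
      simp [Gf]
    · push Not at hp
      obtain ⟨u, hu, hlu⟩ := hp
      obtain ⟨hup, hcu⟩ := (hdg _ _ _ _ (hcl p)).2.2.2.1 u hu hlu
      have hu0 : 0 < ∑ i, u i := by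
        rw [Nat.pos_iff_ne_zero]
        intro h0
        have h1 := (hcl p).one u hu
        have h2 : ∀ i, u i = 0 := by
          intro i
          exact (Finset.sum_eq_zero_iff.1 h0) i (Finset.mem_univ i)
        unfold dt cv at h1
        simp [h2] at h1
      have hlt : ∑ i, (p - u) i < s := by
        have h3 : ∑ i, (p - u) i + ∑ i, u i = ∑ i, p i := by
          rw [← Finset.sum_add_distrib]
          refine Finset.sum_congr rfl fun i _ => ?_
          have := hup i
          simp only [Pi.sub_apply]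
          omega
        omega
      obtain ⟨b, hb, a, hba⟩ := IH _ hlt (p - u) rfl
      beta_reduce at hba
      have c1 := hGcell b a
      rw [hba] at c1
      have hσ := ((hdg _ _ _ _ hcu).2.1 _ _ _ c1).1
      have hub : u ∈ σ b := hσ ▸ hu
      refine ⟨b, hb, a + Pi.single ((e b).symm ⟨u, hub⟩) 1, ?_⟩
      funext i
      have h4 : ((e b ((e b).symm ⟨u, hub⟩) : σ b) : ι → ℕ) = u := by simp
      have h5 : Gf (σ b) (e b) b (a + Pi.single ((e b).symm ⟨u, hub⟩) 1) i =
          Gf (σ b) (e b) b a i + u i := by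
        have h6 : ∑ j, (Pi.single ((e b).symm ⟨u, hub⟩) 1 : ι → ℕ) j *
            (e b j : ι → ℕ) i = u i := by
          rw [Finset.sum_eq_single ((e b).symm ⟨u, hub⟩)]
          · rw [Pi.single_eq_same, one_mul, h4]
          · intro j _ hj
            rw [Pi.single_eq_of_ne hj, zero_mul]
          · intro h
            exact absurd (Finset.mem_univ _) h
        unfold Gf
        simp only [Pi.add_apply, add_mul, Finset.sum_add_distrib]
        rw [h6]
        ring
      beta_reduce
      rw [h5, hba]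
      have := hup i
      simp only [Pi.sub_apply]
      omega
  · intro p hp
    rw [Set.Finite.mem_toFinset] at hp
    change ¬ (∀ u ∈ σ p, l p u < 1) at hp
    push Not at hp
    exact ⟨σ p, l p, w p, hcl p, hp⟩

end

end Pool.Agent.Helper70.KH.BJ
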